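import Pool.Agent.KS6_5.HoTTP.Defs

set_option autoImplicit false

namespace Pool.Agent.KS6_5.HoTTP

open CategoryTheory Simplicial Opposite Limits
open Pool.Agent.R794.HoTT Pool.Agent.R794.Gerbe

section general

variable {k : Type} [Ring k] {D : Type} [Category.{0} D]

theorem surj_of_epi_lift {P : ModuleCat.{0} k} (hP : Projective P) {B C : ModuleCat.{0} k}
    (q : B ⟶ C) (hq : Function.Surjective q.hom) (f : P ⟶ C) : ∃ g : P ⟶ B, g ≫ q = f := by
  have : Epi q := (ModuleCat.epi_iff_surjective q).2 hq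
  exact ⟨Projective.factorThru f q, Projective.factorThru_comp f q⟩

/-- `sub M c` is `M` if `c` fails -/
def subIso (M : ModuleCat.{0} k) (c : Prop) (hc : ¬ c) :
    ModuleCat.of k (sub (k := k) M c) ≅ M where
  hom := ModuleCat.ofHom (sub (k := k) M c).subtype
  inv := ModuleCat.ofHom
    (LinearMap.codRestrict (sub (k := k) M c) LinearMap.id (fun _ h => absurd h hc))
  hom_inv_id := rfl
  inv_hom_id := rfl

theorem internallyProjective_ext (h : D → Prop) (hh : ∀ A B : D, (A ⟶ B) → h A → h B)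
    (hD : ∀ U : D, ∃ X : Over U, ¬ h X.left ∧
      ∀ Y : Over U, ¬ h Y.left → Nonempty (Y ⟶ X) ∧ Subsingleton (Y ⟶ X))
    (M : ModuleCat.{0} k) [Projective M] : InternallyProjective (ext h hh M) := by
  classical
  intro B C q hq U f
  obtain ⟨X, hX, hY⟩ := hD U
  have hP : Projective (ModuleCat.of k (sub M (h X.left))) :=
    Projective.of_iso (subIso M _ hX).symm inferInstance
  let fX : ModuleCat.of k (sub M (h X.left)) ⟶ C.obj (op X.left) := f.app (op X)
  obtain ⟨g0, hg0⟩ := surj_of_epi_lift hP (q.app (op X.left)) (hq _) fX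
  let θ : ∀ Y : Over U, ModuleCat.of k (sub M (h Y.left)) ⟶ ModuleCat.of k (sub M (h X.left)) :=
    fun Y => ModuleCat.ofHom (Submodule.inclusion (fun _ _ h1 => absurd h1 hX))
  let β : ∀ (F : Dᵒᵖ ⥤ ModuleCat.{0} k) (Y : Over U), F.obj (op X.left) ⟶ F.obj (op Y.left) :=
    fun F Y => if hn : ¬ h Y.left then F.map (hY Y hn).1.some.left.op else 0
  have hβ : ∀ (F : Dᵒᵖ ⥤ ModuleCat.{0} k) (Y : Over U) (hn : ¬ h Y.left) (φ : Y ⟶ X),
      β F Y = F.map φ.left.op := by
    intro F Y hn φ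
    have h1 := (hY Y hn).2
    have h2 : (hY Y hn).1.some = φ := Subsingleton.elim _ _
    have h3 : β F Y = F.map (hY Y hn).1.some.left.op := dif_pos hn
    rw [h3, h2]
  refine ⟨{ app := fun Y => θ Y.unop ≫ g0 ≫ β B Y.unop, naturality := ?_ }, ?_⟩
  · intro Y Z φ
    by_cases hn : h Y.unop.left
    · refine ModuleCat.hom_ext (LinearMap.ext fun z => ?_)
      have hz : z = 0 := Subtype.ext (z.2 hn)
      rw [hz, map_zero, map_zero]
    · have hn' : ¬ h Z.unop.left := fun h1 => hn (hh _ _ φ.unop.left h1)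
      obtain ⟨ψ⟩ := (hY Y.unop hn).1
      have e1 := hβ B Y.unop hn ψ
      have e2 := hβ B Z.unop hn' (φ.unop ≫ ψ)
      change _ ≫ θ Z.unop ≫ g0 ≫ β B Z.unop = (θ Y.unop ≫ g0 ≫ β B Y.unop) ≫ B.map φ.unop.left.op
      rw [e1, e2, Over.comp_left, op_comp, B.map_comp]
      rfl
  · ext1
    funext Y
    simp only [NatTrans.comp_app, Functor.whiskerLeft_app]
    change (θ Y.unop ≫ g0 ≫ β B Y.unop) ≫ q.app (op Y.unop.left) = f.app Y
    by_cases hn : h Y.unop.left
    · refine ModuleCat.hom_ext (LinearMap.ext fun z => ?_)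
      have hz : z = 0 := Subtype.ext (z.2 hn)
      rw [hz, map_zero, map_zero]
    · obtain ⟨ψ⟩ := (hY Y.unop hn).1
      have e1 := hβ B Y.unop hn ψ
      rw [e1, Category.assoc, Category.assoc, NatTrans.naturality, ← Category.assoc g0, hg0]
      have h1 := f.naturality ψ.op
      change (ModuleCat.ofHom (Submodule.inclusion _) : ModuleCat.of k (sub M (h X.left)) ⟶
        ModuleCat.of k (sub M (h Y.unop.left))) ≫ f.app Y = fX ≫ C.map ψ.left.op at h1
      refine (congrArg (fun α => θ Y.unop ≫ α) h1.symm).trans ?_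
      rfl

theorem injective_of_internallyInjective (U : D) (M : ModuleCat.{0} k)
    (hI : InternallyInjective (const D M)) : Injective M := by
  refine ⟨fun {A B} f i hi => ?_⟩
  have hm : Mono ((Functor.const Dᵒᵖ).map i) := by
    rw [NatTrans.mono_iff_mono_app]
    intro V
    exact hi
  obtain ⟨g, hg⟩ := hI _ _ ((Functor.const Dᵒᵖ).map i) hm U
    (Functor.whiskerLeft (Over.forget U).op ((Functor.const Dᵒᵖ).map f))
  exact ⟨g.app (op (Over.mk (𝟙 U))), congrArg (fun α => α.app (op (Over.mk (𝟙 U)))) hg⟩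

theorem projective_of_internallyProjective (h : D → Prop) (hh : ∀ A B : D, (A ⟶ B) → h A → h B)
    (U : D) (hU : ¬ h U) (M : ModuleCat.{0} k) (hP : InternallyProjective (ext h hh M)) :
    Projective M := by
  refine ⟨fun {B C} f q hq => ?_⟩
  rw [ModuleCat.epi_iff_surjective] at hq
  let F : ext h hh M ⟶ const D C :=
    { app := fun V => ModuleCat.ofHom (f.hom.comp (sub M (h V.unop)).subtype)
      naturality := fun _ _ _ => rfl }
  obtain ⟨g, hg⟩ := hP (const D B) (const D C) ((Functor.const Dᵒᵖ).map q) (fun V => hq) U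
    (Functor.whiskerLeft (Over.forget U).op F)
  have h1 := congrArg (fun α => α.app (op (Over.mk (𝟙 U)))) hg
  let g1 := g.app (op (Over.mk (𝟙 U)))
  have h2 : ∀ z : sub (k := k) M (h U), q.hom (g1.hom z) = f.hom z.1 :=
    fun z => congrArg (fun α => α.hom z) h1
  refine ⟨ModuleCat.ofHom (g1.hom.comp
    (LinearMap.codRestrict (sub (k := k) M (h U)) LinearMap.id (fun _ h => absurd h hU))), ?_⟩
  refine ModuleCat.hom_ext (LinearMap.ext fun z => ?_)
  exact h2 ⟨z, fun h => absurd h hU⟩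

theorem internallyInjective_of_subsingleton (P : Dᵒᵖ ⥤ ModuleCat.{0} k)
    (hP : ∀ V, Subsingleton (P.obj V)) : InternallyInjective P := by
  intro A B i _ U f
  refine ⟨{ app := fun Y => 0, naturality := ?_ }, ?_⟩
  · intro Y Z φ
    refine ModuleCat.hom_ext (LinearMap.ext fun z => ?_)
    exact (hP (op Z.unop.left)).elim _ _
  · ext1
    funext Y
    refine ModuleCat.hom_ext (LinearMap.ext fun z => ?_)
    exact (hP (op Y.unop.left)).elim _ _

theorem internallyProjective_of_subsingleton (P : Dᵒᵖ ⥤ ModuleCat.{0} k)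
    (hP : ∀ V, Subsingleton (P.obj V)) : InternallyProjective P := by
  intro B C q _ U f
  refine ⟨{ app := fun Y => 0, naturality := ?_ }, ?_⟩
  · intro Y Z φ
    refine ModuleCat.hom_ext (LinearMap.ext fun z => ?_)
    have hz : z = 0 := (hP (op Y.unop.left)).elim _ _
    rw [hz, map_zero, map_zero]
  · ext1
    funext Y
    refine ModuleCat.hom_ext (LinearMap.ext fun z => ?_)
    have hz : z = 0 := (hP (op Y.unop.left)).elim _ _
    rw [hz, map_zero, map_zero]

end general

/-! ### The slices of right fibrations over `Δ¹` -/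

theorem over_D {E : SSet.{0}} {p : E ⟶ Δ[1]} (hp : IsRightFibration p) (U : HoC E) :
    ∃ X : Over U, ht p X.left.as.as = 0 ∧
      ∀ Y : Over U, ht p Y.left.as.as = 0 → Nonempty (Y ⟶ X) ∧ Subsingleton (Y ⟶ X) := by
  obtain ⟨z, rfl⟩ := mk_rep U
  obtain ⟨x, u, hx⟩ := fill1 hp z
  have hV : ∀ {x₀ x₁ x₂ : E _⦋0⦌} (e₀₁ : SSet.Edge x₀ x₁) (e₁₂ : SSet.Edge x₁ x₂),
      ∃ e₀₂ : SSet.Edge x₀ x₂, Nonempty (SSet.Edge.CompStruct e₀₁ e₁₂ e₀₂) := fun a b => fillI hp a b
  refine ⟨Over.mk (hm u), hx, fun Y hY => ?_⟩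
  obtain ⟨y, hy⟩ := mk_rep Y.left
  have hyx : ht p y = 0 := by
    have : Y.left.as.as = y := by rw [hy]; rfl
    rw [← this]; exact hY
  obtain ⟨μ, hμ⟩ := exists_edge hV (eqToHom hy.symm ≫ Y.hom)
  have hμ' : Y.hom = eqToHom hy ≫ hm μ := by rw [← hμ]; simp
  obtain ⟨c, ⟨hc⟩⟩ := fillR hp μ u (by rw [hyx]; exact Fin.zero_le _)
  constructor
  · refine ⟨Over.homMk (eqToHom hy ≫ hm c) ?_⟩
    rw [hμ']
    simp only [Category.assoc]
    exact congrArg (fun α => eqToHom hy ≫ α) (hm_comp hc)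
  · constructor
    have key : ∀ m : Y ⟶ Over.mk (hm u), m.left = eqToHom hy ≫ hm c := by
      intro m
      obtain ⟨c', hc'⟩ := exists_edge hV (eqToHom hy.symm ≫ m.left)
      have h1 : hm c' ≫ hm u = hm μ := by
        have h2 := Over.w m
        rw [hμ'] at h2
        rw [← hc', Category.assoc]
        change eqToHom hy.symm ≫ m.left ≫ (Over.mk (hm u)).hom = hm μ
        rw [h2]
        simp
      obtain ⟨h3⟩ := comp_of_eq hp h1
      -- `c'` and `c` are homotopic
      obtain ⟨h5⟩ := fill33 hp hc h3 (SSet.Edge.CompStruct.idComp μ)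
      have h6 := hm_comp h5
      have h7 : hm (SSet.Edge.id y) = 𝟙 (mk y) :=
        SSet.Truncated.HomotopyCategory.homMk_id _
      rw [h7, Category.id_comp] at h6
      rw [h6, ← hc']
      simp
    intro m m'
    ext
    rw [key m, key m']

end Pool.Agent.KS6_5.HoTTP
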