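import Pool.Graph.R_seed8.R794.Equiv

/-!
# Internal projectivity and HoTT-projectivity in presheaf ∞-toposes, and two families of modules

The conventions are those of `Pool.Graph.R_seed8.R794.HoTTDefs`.
-/

set_option autoImplicit false

namespace Pool.Agent.KS6_5.HoTTP

open CategoryTheory Simplicial Opposite

/-- Internal projectivity of a presheaf `P` of `k`-modules on `D`, that is, of a module over the
constant ring `k` in the topos of presheaves of sets on `D`: for each effective epimorphism
`q : B ⟶ C` of modules (that is, each map which is surjective over each object of `D`) the map of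
internal homs `Hom(P, B) ⟶ Hom(P, C)` is an effective epimorphism.

The sections of `Hom(P, B)` over an object `U` of `D` are the morphisms of presheaves of modules
`P|_U ⟶ B|_U` between the restrictions to the slice category `D/U`, and a map of presheaves of
sets is an effective epimorphism if and only if it is surjective on the sections over each `U`. -/
def InternallyProjective {k : Type} [Ring k] {D : Type} [Category.{0} D]
    (P : Dᵒᵖ ⥤ ModuleCat.{0} k) : Prop :=
  ∀ (B C : Dᵒᵖ ⥤ ModuleCat.{0} k) (q : B ⟶ C),
    (∀ V : Dᵒᵖ, Function.Surjective (q.app V).hom) → ∀ (U : D)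
    (f : (Over.forget U).op ⋙ P ⟶ (Over.forget U).op ⋙ C),
    ∃ g : (Over.forget U).op ⋙ P ⟶ (Over.forget U).op ⋙ B,
      g ≫ Functor.whiskerLeft (Over.forget U).op q = f

/-- HoTT-projectivity, in the ∞-topos `P(S)` of presheaves of spaces on the simplicial set `S`, of
a module `P` over the constant ring `k` in the `1`-topos of `0`-truncated objects of `P(S)`, that
is, of a presheaf of `k`-modules on the homotopy category `ho S`: for every object `X` of `P(S)`,
presented by a right fibration `p : E ⟶ S`, the base change of `P` to `P(S)/X = P(E)`, which is the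
restriction of `P` along `ho E ⥤ ho S`, is internally projective. -/
def HoTTProjective {k : Type} [Ring k] (S : SSet.{0})
    (P : (SSet.hoFunctor.obj S)ᵒᵖ ⥤ ModuleCat.{0} k) : Prop :=
  ∀ (E : SSet.{0}) (p : E ⟶ S), Pool.Agent.R794.HoTT.IsRightFibration p →
    InternallyProjective ((SSet.hoFunctor.map p).toFunctor.op ⋙ P)

/-- The submodule of `M` which is `M` itself if `c` fails, and `0` if `c` holds. -/
def sub {k : Type} [Ring k] (M : Type) [AddCommGroup M] [Module k M] (c : Prop) :
    Submodule k M where
  carrier := {z | c → z = 0}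
  zero_mem' := fun _ => rfl
  add_mem' := fun {x y} hx hy h => by rw [hx h, hy h, add_zero]
  smul_mem' := fun a x hx h => by rw [hx h, smul_zero]

/-- The presheaf of modules with the value `M` at the objects which do not satisfy `h`, and the
value `0` at the objects which satisfy `h`; the transition maps are the inclusions. (`h` is a
property such that the target of a morphism satisfies `h` if its source does.) -/
def ext {k : Type} [Ring k] {D : Type} [Category.{0} D] (h : D → Prop)
    (hh : ∀ A B : D, (A ⟶ B) → h A → h B) (M : ModuleCat.{0} k) : Dᵒᵖ ⥤ ModuleCat.{0} k where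
  obj A := ModuleCat.of k (sub M (h A.unop))
  map {A B} f := ModuleCat.ofHom
    (Submodule.inclusion (fun _ hz hB => hz (hh B.unop A.unop f.unop hB)))
  map_id _ := rfl
  map_comp _ _ := rfl

/-- The objects of `ho Δ¹` given by the vertex `1` of `Δ¹`. -/
def top (A : SSet.hoFunctor.obj (Δ[1] : SSet.{0})) : Prop :=
  (SSet.stdSimplex.asOrderHom (show (Δ[1] : SSet.{0}) _⦋0⦌ from A.as.as)) 0 = 1

theorem top_mono (A B : SSet.hoFunctor.obj (Δ[1] : SSet.{0})) (f : A ⟶ B) : top A → top B := by
  obtain ⟨x, rfl⟩ := Pool.Agent.R794.Gerbe.mk_rep A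
  obtain ⟨y, rfl⟩ := Pool.Agent.R794.Gerbe.mk_rep B
  obtain ⟨e, -⟩ := Pool.Agent.R794.Gerbe.exists_edge Pool.Agent.R794.Gerbe.D_comp f
  intro hx
  have h1 := Pool.Agent.R794.Gerbe.ht_le (𝟙 (Δ[1] : SSet.{0})) e
  have h2 : Pool.Agent.R794.Gerbe.ht (𝟙 (Δ[1] : SSet.{0})) x = 1 := hx
  rw [h2] at h1
  exact le_antisymm (Fin.le_last _) h1

/-- The constant module with value `M` in the topos of presheaves of sets on `D`. -/
abbrev const {k : Type} [Ring k] (D : Type) [Category.{0} D] (M : ModuleCat.{0} k) :
    Dᵒᵖ ⥤ ModuleCat.{0} k := (Functor.const Dᵒᵖ).obj M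

/-- The module `(0 → M)` over `ho Δ¹`, with value `M` at the vertex `0` and value `0` at the
vertex `1`: the extension by zero of the constant module `M` on the subobject of the terminal object
which is represented by the vertex `0`. -/
abbrev atZero {k : Type} [Ring k] (M : ModuleCat.{0} k) :
    (SSet.hoFunctor.obj (Δ[1] : SSet.{0}))ᵒᵖ ⥤ ModuleCat.{0} k := ext top top_mono M

end Pool.Agent.KS6_5.HoTTP
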