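import Pool.Agent.KS6_5.HoTTP.NotE

set_option autoImplicit false

namespace Pool.Agent.KS6_5.HoTTP

open CategoryTheory Simplicial Opposite Limits
open Pool.Agent.R794.HoTT Pool.Agent.R794.Gerbe

variable {k : Type} [Ring k]

theorem ext_congr {D : Type} [Category.{0} D] {h h' : D → Prop}
    {hh : ∀ A B : D, (A ⟶ B) → h A → h B} {hh' : ∀ A B : D, (A ⟶ B) → h' A → h' B}
    (e : ∀ A, h A ↔ h' A) (M : ModuleCat.{0} k) (hP : InternallyProjective (ext h hh M)) :
    InternallyProjective (ext h' hh' M) := by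
  obtain rfl : h = h' := funext fun A => propext (e A)
  exact hP

/-- the property `top` pulled back along a functor -/
abbrev ptop {D : Type} [Category.{0} D] (F : D ⥤ SSet.hoFunctor.obj (Δ[1] : SSet.{0})) (A : D) :
    Prop := top (F.obj A)

theorem ptop_mono {D : Type} [Category.{0} D] (F : D ⥤ SSet.hoFunctor.obj (Δ[1] : SSet.{0}))
    (A B : D) (f : A ⟶ B) (h : ptop F A) : ptop F B := top_mono _ _ (F.map f) h

theorem comp_atZero {D : Type} [Category.{0} D] (F : D ⥤ SSet.hoFunctor.obj (Δ[1] : SSet.{0}))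
    (M : ModuleCat.{0} k) : F.op ⋙ atZero M = ext (ptop F) (ptop_mono F) M := rfl

/-- the vertex `0` -/
def v0 : (Δ[1] : SSet.{0}) _⦋0⦌ := SSet.stdSimplex.objMk ⟨fun _ => 0, monotone_const⟩

theorem not_top_v0 : ¬ top (mk v0) := by
  intro h
  exact absurd (show (0 : Fin 2) = 1 from h) (by decide)

theorem proj_a (M : ModuleCat.{0} k) (h : HoTTProjective Δ[1] (atZero M)) : Projective M :=
  projective_of_internallyProjective (D := HoC (Δ[1] : SSet.{0}))
    (ptop (SSet.hoFunctor.map (𝟙 _)).toFunctor) (ptop_mono _) (mk v0)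
    (fun h => not_top_v0 h) M (h _ (𝟙 _) id_rf)

theorem proj_b (M : ModuleCat.{0} k) (hM : Projective M) : HoTTProjective Δ[1] (atZero M) := by
  intro E' p' hp'
  have key : ∀ A : HoC E', ¬ ptop (SSet.hoFunctor.map p').toFunctor A ↔ ht p' A.as.as = 0 := by
    intro A
    have h1 : ptop (SSet.hoFunctor.map p').toFunctor A ↔ ht p' A.as.as = 1 := Iff.rfl
    rw [h1]
    generalize ht p' A.as.as = a
    revert a
    decide
  refine internallyProjective_ext (D := HoC E') (ptop (SSet.hoFunctor.map p').toFunctor)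
    (ptop_mono _) ?_ M
  intro U
  obtain ⟨X, hX, hY⟩ := over_D hp' U
  exact ⟨X, (key _).2 hX, fun Y hn => hY Y ((key _).1 hn)⟩

theorem key_S (x : S _⦋0⦌) : ptop FF (mk x) ↔ SS.v x 0 = true := by
  have h1 : ptop FF (mk x) ↔ b2 (SS.v x 0) = 1 := Iff.rfl
  rw [h1]
  generalize SS.v x 0 = a
  revert a
  decide

theorem proj_c (M : ModuleCat.{0} k) (h : InternallyProjective (FF.op ⋙ atZero M)) :
    Projective M :=
  projective_of_internallyProjective (D := HoC S) (ptop FF) (ptop_mono _) (mk Sd)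
    (fun h => absurd ((key_S Sd).1 h) (by decide)) M h

theorem proj_d (M : ModuleCat.{0} k) (hM : Projective M) :
    InternallyProjective (FF.op ⋙ atZero M) := by
  refine internallyProjective_ext (D := HoC S) (ptop FF) (ptop_mono _) ?_ M
  intro U
  obtain ⟨x, rfl⟩ := mk_rep U
  refine ⟨Over.mk (hm (S_edge Sd x (Bool.false_le _))),
    fun h => absurd ((key_S Sd).1 h) (by decide), fun Y hn => ⟨?_, ?_⟩⟩
  · obtain ⟨y, hy⟩ := mk_rep Y.left
    rw [hy, key_S] at hn
    have hle : SS.v y 0 ≤ SS.v Sd 0 := by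
      rw [Bool.eq_false_iff.2 hn]
      exact Bool.false_le _
    exact ⟨Over.homMk (eqToHom hy ≫ hm (S_edge y Sd hle)) ((S_thin _ _).elim _ _)⟩
  · constructor
    intro m m'
    ext
    exact (S_thin _ _).elim _ _

theorem proj_e (M : ModuleCat.{0} k) (h : HoTTProjective S (FF.op ⋙ atZero M)) :
    Subsingleton M := by
  refine E_not_proj M ?_
  have h1 := h E p p_rightFibration
  refine ext_congr (D := HoC E) (h := ptop ((SSet.hoFunctor.map p).toFunctor ⋙ FF))
    (hh := ptop_mono _) ?_ M h1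
  intro A
  exact key_S (p.app _ A.as.as)

theorem proj_f (M : ModuleCat.{0} k) (h : Subsingleton M) :
    HoTTProjective S (FF.op ⋙ atZero M) := by
  intro E' p' _
  refine internallyProjective_of_subsingleton _ (fun V => ?_)
  constructor
  intro a b
  exact Subtype.ext (h.elim _ _)

end Pool.Agent.KS6_5.HoTTP
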