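import Pool.Agent.KS6_5.HoTTP.Core

set_option autoImplicit false

namespace Pool.Agent.KS6_5.HoTTP

open CategoryTheory Simplicial Opposite Limits
open Pool.Agent.R794.HoTT Pool.Agent.R794.Gerbe
open SSet.Truncated (HomotopyCategory)

variable {k : Type} [Ring k]

/-- the unipotent automorphism of `N × N` with parameter `n` -/
def un (N : Type) [AddCommGroup N] [Module k N] (n : ℤ) : N × N →ₗ[k] N × N where
  toFun z := (z.1 + n • z.2, z.2)
  map_add' x y := by
    ext
    · simp only [Prod.fst_add, Prod.snd_add, smul_add]; abel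
    · rfl
  map_smul' c x := by
    ext
    · simp only [Prod.smul_fst, Prod.smul_snd, RingHom.id_apply, smul_add]
      rw [smul_comm n c x.2]
    · rfl

theorem un_add (N : Type) [AddCommGroup N] [Module k N] (a b : ℤ) (z : N × N) :
    un (k := k) N a (un (k := k) N b z) = un (k := k) N (a + b) z := by
  ext
  · simp only [un, LinearMap.coe_mk, AddHom.coe_mk, add_smul]; abel
  · rfl

theorem un_zero (N : Type) [AddCommGroup N] [Module k N] (z : N × N) :
    un (k := k) N 0 z = z := by
  ext
  · simp only [un, LinearMap.coe_mk, AddHom.coe_mk, zero_smul, add_zero]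
  · rfl

/-- the vertices over `c` -/
def vE (x : E _⦋0⦌) : Prop := EE.v x 0 = true

theorem vE_mono {x y : E _⦋0⦌} (e : SSet.Edge x y) (h : vE x) : vE y := E_le e h

/-- the value over a vertex of the module `B` -/
abbrev oB (N : ModuleCat.{0} k) (x : E _⦋0⦌) : ModuleCat.{0} k :=
  ModuleCat.of k (sub (k := k) (N × N) (vE x))

/-- the action of an edge -/
def acB (N : ModuleCat.{0} k) {x y : E _⦋0⦌} (e : SSet.Edge x y) : oB N y ⟶ oB N x :=
  ModuleCat.ofHom (((un (k := k) N (ek e)).comp (sub (k := k) (N × N) (vE y)).subtype).codRestrict _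
    (by
      rintro ⟨z, hz⟩ hx
      have : z = 0 := hz (vE_mono e hx)
      subst this
      exact map_zero _))

theorem acB_id (N : ModuleCat.{0} k) (x : E _⦋0⦌) : (acB N (SSet.Edge.id x)).op
    = 𝟙 (op (oB N x)) := by
  apply Quiver.Hom.unop_inj
  refine ModuleCat.hom_ext (LinearMap.ext fun z => Subtype.ext ?_)
  exact (congrArg (fun n => un (k := k) N n z.1) (ek_id x)).trans (un_zero N z.1)

theorem acB_comp (N : ModuleCat.{0} k) {x y z : E _⦋0⦌} {e : SSet.Edge x y} {e' : SSet.Edge y z}
    {e'' : SSet.Edge x z} (h : SSet.Edge.CompStruct e e' e'') :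
    (acB N e).op ≫ (acB N e').op = (acB N e'').op := by
  apply Quiver.Hom.unop_inj
  refine ModuleCat.hom_ext (LinearMap.ext fun w => Subtype.ext ?_)
  change un (k := k) N (ek e) (un (k := k) N (ek e') w.1) = un (k := k) N (ek e'') w.1
  rw [un_add]
  by_cases hz : EE.v z 0 = true
  · have : w.1 = 0 := w.2 hz
    rw [this, map_zero, map_zero]
  · rw [ek_comp h (Bool.eq_false_iff.2 hz)]

/-- the presheaf `B` with values in the opposite category -/
noncomputable def BM (N : ModuleCat.{0} k) : HoC E ⥤ (ModuleCat.{0} k)ᵒᵖ :=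
  HomotopyCategory.lift (V := E2) (fun x : E _⦋0⦌ => op (oB N x))
    (fun {_ _} e => (acB N (SSet.Edge.ofTruncated e)).op)
    (acB_id N) (fun {_ _ _} {_ _ _} h => acB_comp N (SSet.Edge.CompStruct.ofTruncated h))

theorem BM_map (N : ModuleCat.{0} k) {x y : E _⦋0⦌} (e : SSet.Edge x y) :
    (BM N).map (hm e) = (acB N e).op :=
  HomotopyCategory.lift_map_homMk (V := E2)
    (fun x : E _⦋0⦌ => op (oB N x))
    (fun {_ _} e => (acB N (SSet.Edge.ofTruncated e)).op) (acB_id N)
    (fun {_ _ _} {_ _ _} h => acB_comp N (SSet.Edge.CompStruct.ofTruncated h)) e.toTruncated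

/-- the objects over `c` -/
def hE (A : HoC E) : Prop := vE A.as.as

theorem hE_mono (A B : HoC E) (f : A ⟶ B) : hE A → hE B := by
  let W : MorphismProperty (HoC E) := fun A B _ => hE A → hE B
  have hid : W.ContainsIdentities := ⟨fun A => id⟩
  have hcomp : W.IsStableUnderComposition := ⟨fun f g hf hg h => hg (hf h)⟩
  have hmul : W.IsMultiplicative := {}
  have h := HomotopyCategory.morphismProperty_eq_top (W := W)
    (fun e => vE_mono (SSet.Edge.ofTruncated e))
  have h2 : W f := by rw [h]; trivial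
  exact h2

/-- the presheaf `A` with values in the opposite category -/
noncomputable def AM (N : ModuleCat.{0} k) : HoC E ⥤ (ModuleCat.{0} k)ᵒᵖ :=
  (ext hE hE_mono N).rightOp

theorem AM_map (N : ModuleCat.{0} k) {x y : E _⦋0⦌} (e : SSet.Edge x y) :
    (AM N).map (hm e) = (ModuleCat.ofHom (Submodule.inclusion
      (fun _ hz hx => hz (vE_mono e hx)) : sub (k := k) N (vE y) →ₗ[k] sub (k := k) N (vE x))).op :=
  rfl

/-- the inclusion `A → B` over a vertex -/
def inc (N : ModuleCat.{0} k) (c : Prop) : ModuleCat.of k (sub (k := k) N c) ⟶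
    ModuleCat.of k (sub (k := k) (N × N) c) :=
  ModuleCat.ofHom (((LinearMap.inl k N N).comp (sub (k := k) N c).subtype).codRestrict _ (by
    rintro ⟨z, hz⟩ hx
    have : z = 0 := hz hx
    subst this
    exact map_zero _))

/-- the projection `B → A` over a vertex -/
def pro (N : ModuleCat.{0} k) (c : Prop) : ModuleCat.of k (sub (k := k) (N × N) c) ⟶
    ModuleCat.of k (sub (k := k) N c) :=
  ModuleCat.ofHom (((LinearMap.snd k N N).comp (sub (k := k) (N × N) c).subtype).codRestrict _ (by
    rintro ⟨z, hz⟩ hx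
    have : z = 0 := hz hx
    subst this
    exact map_zero _))

/-- the inclusion `A → B` -/
noncomputable def incM (N : ModuleCat.{0} k) : BM N ⟶ AM N :=
  HomotopyCategory.mkNatTrans (V := E2) (F := BM N) (G := AM N)
    (fun x : E _⦋0⦌ => (inc N (vE x)).op)
    (by
      intro x y e
      have h1 : (BM N).map (HomotopyCategory.homMk e) = (acB N (SSet.Edge.ofTruncated e)).op :=
        BM_map N (SSet.Edge.ofTruncated e)
      have h2 := AM_map N (SSet.Edge.ofTruncated e)
      have h3 : (AM N).map (HomotopyCategory.homMk e) = _ := h2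
      rw [h1, h3]
      apply Quiver.Hom.unop_inj
      refine ModuleCat.hom_ext (LinearMap.ext fun w => Subtype.ext ?_)
      change un (k := k) N _ ((w.1 : N), (0 : N)) = ((w.1 : N), (0 : N))
      simp [un])

/-- the projection `B → A` -/
noncomputable def proM (N : ModuleCat.{0} k) : AM N ⟶ BM N :=
  HomotopyCategory.mkNatTrans (V := E2) (F := AM N) (G := BM N)
    (fun x : E _⦋0⦌ => (pro N (vE x)).op)
    (by
      intro x y e
      have h1 : (BM N).map (HomotopyCategory.homMk e) = (acB N (SSet.Edge.ofTruncated e)).op :=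
        BM_map N (SSet.Edge.ofTruncated e)
      have h2 := AM_map N (SSet.Edge.ofTruncated e)
      have h3 : (AM N).map (HomotopyCategory.homMk e) = _ := h2
      rw [h1, h3]
      apply Quiver.Hom.unop_inj
      refine ModuleCat.hom_ext (LinearMap.ext fun w => Subtype.ext ?_)
      rfl)

theorem not_vE_Ed : ¬ vE Ed := by
  intro h
  exact absurd (show (false : Bool) = true from h) (by decide)

/-- the element of `sub` -/
def el {N : Type} [AddCommGroup N] [Module k N] {c : Prop} (hc : ¬ c) (z : N) :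
    sub (k := k) N c := ⟨z, fun h => absurd h hc⟩

theorem E_not_inj (M : ModuleCat.{0} k) (hI : InternallyInjective (const (HoC E) M)) :
    Subsingleton M := by
  let A : (HoC E)ᵒᵖ ⥤ ModuleCat.{0} k := ext hE hE_mono M
  let B : (HoC E)ᵒᵖ ⥤ ModuleCat.{0} k := (BM M).leftOp
  let i : A ⟶ B := NatTrans.leftOp (incM M)
  let f : A ⟶ const (HoC E) M :=
    { app := fun V => ModuleCat.ofHom (sub (k := k) M (hE V.unop)).subtype
      naturality := fun _ _ _ => rfl }
  have hi : Mono i := by
    rw [NatTrans.mono_iff_mono_app]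
    intro X
    rw [ModuleCat.mono_iff_injective]
    intro a b hab
    apply Subtype.ext
    exact congrArg (fun z => z.1.1) hab
  obtain ⟨g, hg⟩ := hI A B i hi (mk Ec) (Functor.whiskerLeft (Over.forget (mk Ec)).op f)
  let X : Over (mk Ec) := Over.mk (hm u)
  let φ : X ⟶ X := Over.homMk (hm w) (hm_comp wu)
  let g0 : oB M Ed ⟶ M := g.app (op X)
  have h1 : inc M (vE Ed) ≫ g0 = ModuleCat.ofHom (sub (k := k) M (vE Ed)).subtype :=
    congrArg (fun α => α.app (op X)) hg
  have h2 : acB M w ≫ g0 = g0 := by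
    have h3 := g.naturality φ.op
    have h4 : B.map (hm w).op = acB M w := congrArg (fun α => α.unop) (BM_map M w)
    have h5 : B.map (hm w).op ≫ g0 = g0 ≫ 𝟙 M := h3
    rw [Category.comp_id] at h5
    rw [← h4]
    exact h5
  refine subsingleton_of_forall_eq 0 fun z => ?_
  have e1 : g0.hom (el not_vE_Ed (z, (0 : M))) = z :=
    congrArg (fun α => α.hom (el not_vE_Ed z)) h1
  have e2 : g0.hom (el not_vE_Ed ((0 : M) + (1 : ℤ) • z, z)) = g0.hom (el not_vE_Ed ((0 : M), z)) :=
    congrArg (fun α => α.hom (el not_vE_Ed ((0 : M), z))) h2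
  have e3 : g0.hom (el not_vE_Ed ((0 : M) + (1 : ℤ) • z, z)) =
      g0.hom (el not_vE_Ed (z, (0 : M))) + g0.hom (el not_vE_Ed ((0 : M), z)) := by
    rw [← map_add]
    congr 1
    apply Subtype.ext
    change ((0 : M) + (1 : ℤ) • z, z) = (z, (0 : M)) + ((0 : M), z)
    simp
  rw [e2, e1] at e3
  exact left_eq_add.1 (by rw [add_comm]; exact e3)

theorem E_not_proj (M : ModuleCat.{0} k) (hP : InternallyProjective (ext hE hE_mono M)) :
    Subsingleton M := by
  let A : (HoC E)ᵒᵖ ⥤ ModuleCat.{0} k := ext hE hE_mono M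
  let B : (HoC E)ᵒᵖ ⥤ ModuleCat.{0} k := (BM M).leftOp
  let q : B ⟶ A := NatTrans.leftOp (proM M)
  have hq : ∀ V : (HoC E)ᵒᵖ, Function.Surjective (q.app V).hom := by
    intro V z
    refine ⟨(⟨((0 : M), z.1), fun h => ?_⟩ : sub (k := k) (M × M) (vE V.unop.as.as)), ?_⟩
    · rw [z.2 h]; rfl
    · exact Subtype.ext rfl
  obtain ⟨g, hg⟩ := hP B A q hq (mk Ec) (𝟙 _)
  let X : Over (mk Ec) := Over.mk (hm u)
  let φ : X ⟶ X := Over.homMk (hm w) (hm_comp wu)
  let g0 : ModuleCat.of k (sub (k := k) M (vE Ed)) ⟶ oB M Ed := g.app (op X)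
  have h1 : ∀ z : M, (g0.hom (el not_vE_Ed z)).1.2 = z := fun z =>
    congrArg (fun α => ((α.app (op X)).hom (el not_vE_Ed z)).1) hg
  have h2 : ∀ z : M, g0.hom (el not_vE_Ed z) = (acB M w).hom (g0.hom (el not_vE_Ed z)) := by
    intro z
    have h3 := g.naturality φ.op
    have h4 : B.map (hm w).op = acB M w := congrArg (fun α => α.unop) (BM_map M w)
    have h5 : A.map (hm w).op ≫ g0 = g0 ≫ B.map (hm w).op := h3
    rw [h4] at h5
    exact congrArg (fun α => α.hom (el not_vE_Ed z)) h5
  refine subsingleton_of_forall_eq 0 fun z => ?_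
  have e1 := h1 z
  have e2 : (g0.hom (el not_vE_Ed z)).1.1 =
      (g0.hom (el not_vE_Ed z)).1.1 + (1 : ℤ) • (g0.hom (el not_vE_Ed z)).1.2 :=
    congrArg (fun y => y.1.1) (h2 z)
  rw [e1, one_smul] at e2
  exact left_eq_add.1 e2

end Pool.Agent.KS6_5.HoTTP
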